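import Pool.Agent.helper70.LE.SpecN
import Pool.Agent.helper59.FI.Base

set_option autoImplicit false

namespace Pool.Agent.LE

open Pool.Agent.helper58.DC Pool.Agent.DI Pool.Agent.GR Pool.Agent.OB Pool.Agent.DR Pool.Agent.FI Pool.Agent.FI3 Pool.Agent.FI4

section

variable {G : Type} [Group G]

theorem STA_cz_sup (P Q : Subgroup G) : cz (P ⊔ Q) = cz P ⊓ cz Q := by
  ext x
  constructor
  · intro h
    exact ⟨cz_mono le_sup_left h, cz_mono le_sup_right h⟩
  · rintro ⟨h1, h2⟩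
    have h3 : P ⊔ Q ≤ Subgroup.centralizer {x} := by
      refine sup_le (fun a ha => ?_) (fun a ha => ?_)
      · rw [Subgroup.mem_centralizer_iff]
        intro b hb
        rw [Set.mem_singleton_iff] at hb
        rw [hb]
        exact ((Subgroup.mem_centralizer_iff.1 h1) a ha).symm
      · rw [Subgroup.mem_centralizer_iff]
        intro b hb
        rw [Set.mem_singleton_iff] at hb
        rw [hb]
        exact ((Subgroup.mem_centralizer_iff.1 h2) a ha).symm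
    rw [Subgroup.mem_centralizer_iff]
    intro a ha
    exact ((Subgroup.mem_centralizer_iff.1 (h3 ha)) x rfl).symm

theorem STA_nz_aux {P Q : Subgroup G} {w : G} (h1 : w ∈ nz P) (h2 : w ∈ nz Q) : ∀ h ∈ P ⊔ Q, w * h * w⁻¹ ∈ P ⊔ Q := by
  intro h hh
  have h3 : P ⊔ Q ≤ (P ⊔ Q).comap (MulAut.conj w).toMonoidHom := by
    refine sup_le (fun a ha => ?_) (fun a ha => ?_)
    · exact Subgroup.mem_sup_left (((Subgroup.mem_normalizer_iff.1 h1) a).1 ha)
    · exact Subgroup.mem_sup_right (((Subgroup.mem_normalizer_iff.1 h2) a).1 ha)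
  exact h3 hh

theorem STA_nz_sup {P Q : Subgroup G} {w : G} (h1 : w ∈ nz P) (h2 : w ∈ nz Q) : w ∈ nz (P ⊔ Q) := by
  rw [Subgroup.mem_normalizer_iff]
  intro h
  constructor
  · exact STA_nz_aux h1 h2 h
  · intro hh
    have h3 := STA_nz_aux ((nz P).inv_mem h1) ((nz Q).inv_mem h2) _ hh
    have h4 : w⁻¹ * (w * h * w⁻¹) * w⁻¹⁻¹ = h := by group
    rwa [h4] at h3

end

theorem STA (hFRA4 : FRA4_stmt) : STA_stmt := by
  intro p M hS G _ _ D x θ χ hL Q hQ hRP a ha hanz P' hP' w hw hcom hψ u hu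
  obtain ⟨ψ, hψ1, hψ2⟩ := hψ
  have hczP : w ∈ cz P' := by
    rw [Subgroup.mem_centralizer_iff]
    intro b hb
    exact (hcom b hb).symm
  have hwQ : w ∈ nz Q := by
    have h1 : w = a * (a⁻¹ * w) := by group
    rw [h1]
    exact (nz Q).mul_mem hanz (cz_le_nz Q hw)
  have hwn : w ∈ nz (Q ⊔ P') := STA_nz_sup hwQ (cz_le_nz P' hczP)
  have hQD : Q ⊔ P' ≤ D := sup_le hQ hP'
  obtain ⟨-, hf, -⟩ := hFRA4 p M hS G D x θ χ hL (Q ⊔ P') hQD
  rw [STA_cz_sup] at hf
  obtain ⟨k, hk, hkT⟩ := hf w hwn ψ hψ1 hψ2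
  have hkQ : a⁻¹ * k * a ∈ cz Q := by
    rw [Subgroup.mem_centralizer_iff]
    intro q hq
    have h1 : a * q * a⁻¹ ∈ Q := ((Subgroup.mem_normalizer_iff.1 hanz) q).1 hq
    have h2 := (Subgroup.mem_centralizer_iff.1 hk.1) _ h1
    have h3 : q * (a⁻¹ * k * a) = a⁻¹ * (a * q * a⁻¹ * k) * a := by group
    have h4 : a⁻¹ * k * a * q = a⁻¹ * (k * (a * q * a⁻¹)) * a := by group
    rw [h3, h4, h2]
  have hc1 : a⁻¹ * (k * w) ∈ cz Q := by
    have h1 : a⁻¹ * (k * w) = (a⁻¹ * k * a) * (a⁻¹ * w) := by group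
    rw [h1]
    exact (cz Q).mul_mem hkQ hw
  have hc2 : a⁻¹ * (k * w) ∈ TT M D θ := (TT M D θ).mul_mem ((TT M D θ).inv_mem ha) hkT
  have hc3 : a⁻¹ * (k * w) ∈ cz D := hRP _ hc2 hc1
  have hcu : u * (a⁻¹ * (k * w)) = a⁻¹ * (k * w) * u := (Subgroup.mem_centralizer_iff.1 hc3) u (hP' hu)
  have hku : u * k = k * u := (Subgroup.mem_centralizer_iff.1 hk.2) u hu
  have hwu : w * u = u * w := hcom u hu
  have h5 : a * u * (a⁻¹ * (k * w)) = u * a * (a⁻¹ * (k * w)) := by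
    calc a * u * (a⁻¹ * (k * w)) = a * (u * (a⁻¹ * (k * w))) := by group
      _ = a * (a⁻¹ * (k * w) * u) := by rw [hcu]
      _ = k * (w * u) := by group
      _ = k * u * w := by rw [hwu]; group
      _ = u * k * w := by rw [hku]
      _ = u * a * (a⁻¹ * (k * w)) := by group
  exact mul_right_cancel h5

end Pool.Agent.LE
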