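import Pool.Agent.helper12.LE.SpecB
import Pool.Agent.helper27.FI4B.BPS

/-! # Project LE (MP_baa4d7_al), row KPA: the signs and the numbers `ε d` modulo `p ^ N` -/

set_option autoImplicit false

namespace Pool.Agent.LE

open Pool.Agent.helper58.DC Pool.Agent.DI Pool.Agent.GR Pool.Agent.OB Pool.Agent.DR Pool.Agent.FI Pool.Agent.FI3 Pool.Agent.FI4 Pool.Agent.FI4C Pool.Agent.FI4B

theorem KPA (hLCG : LCG_stmt) (hLCO : LCO_stmt) : KPA_stmt := by
  intro p M D _ _ X _ R I β d n hPD hpi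
  classical
  obtain ⟨κ, hκ, hκ2, hκs⟩ := BPS_nu hLCG hLCO p M hPD.set D X R I β d n hPD.pg hPD.fr hPD.lg hPD.inv hPD.nd hPD.ort hPD.nrm hpi
  have hp : Prime (p : ℤ) := Nat.prime_iff_prime_int.1 hPD.set.pr
  by_cases hR : ∃ u₀, u₀ ∈ R
  · obtain ⟨u₀, hu₀⟩ := hR
    have hdvd : ∀ u ∈ R, (p : ℤ) ∣ n u - n u₀ ∨ (p : ℤ) ∣ n u + n u₀ := by
      intro u hu
      have h1 := (hLCO p M D κ hPD.set hPD.pg hκ).2.2
      have h2 := InM.sub hPD.set (h1 u) (h1 u₀)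
      have h3 : κ u - κ 1 - (κ u₀ - κ 1) = (((Nat.card I : ℤ) * ((n u - n u₀) * (n u + n u₀)) : ℤ) : ℂ) := by
        rw [hκ2 u hu, hκ2 u₀ hu₀]
        push_cast
        ring
      rw [h3, InM.intCast hPD.set] at h2
      rcases hp.dvd_or_dvd h2 with h4 | h4
      · exact absurd (Int.natCast_dvd_natCast.1 h4) hPD.cop
      · exact hp.dvd_or_dvd h4
    have hcg : ∀ u ∈ R, (p : ℤ) ∣ (if (p : ℤ) ∣ n u - n u₀ then (1 : ℤ) else -1) * n u - n u₀ := by
      intro u hu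
      split_ifs with h1
      · rw [one_mul]
        exact h1
      · rcases hdvd u hu with h2 | h2
        · exact absurd h2 h1
        · have h3 : -1 * n u - n u₀ = -(n u + n u₀) := by ring
          rw [h3]
          exact (dvd_neg).2 h2
    have hε : ∀ u, (if (p : ℤ) ∣ n u - n u₀ then (1 : ℤ) else -1) = 1 ∨
        (if (p : ℤ) ∣ n u - n u₀ then (1 : ℤ) else -1) = -1 := by
      intro u
      split_ifs
      · exact Or.inl rfl
      · exact Or.inr rfl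
    refine ⟨fun u => if (p : ℤ) ∣ n u - n u₀ then 1 else -1, hε, fun u hu s hs => ?_, fun N => ?_⟩
    · show (if (p : ℤ) ∣ n (u ^ s) - n u₀ then (1 : ℤ) else -1) = if (p : ℤ) ∣ n u - n u₀ then (1 : ℤ) else -1
      rw [(hPD.pow u hu s hs).2]
    obtain ⟨-, -, -, -, -, hmul, -, hpow, -⟩ := hLCG D
    obtain ⟨r, hr⟩ : ∃ r, p ^ N = 2 * r + 1 := by
      have h1 : Odd (p ^ N) := (hPD.set.pr.odd_of_ne_two hPD.odd).pow
      exact h1
    refine ⟨(Nat.card I : ℤ) ^ r * n u₀ ^ (p ^ N), ?_, fun χ => ?_⟩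
    · intro h
      rcases hp.dvd_or_dvd h with h1 | h1
      · exact hPD.cop (Int.natCast_dvd_natCast.1 (hp.dvd_of_dvd_pow h1))
      · exact hPD.np u₀ hu₀ (hp.dvd_of_dvd_pow h1)
    refine ⟨fun u => β χ u * κ u ^ r, hmul _ _ (hPD.lg χ) (hpow _ r hκ), fun s hs hχ u => ?_, fun u hu => ?_⟩
    · show β χ (u ^ s) * κ (u ^ s) ^ r = β χ u * κ u ^ r
      rw [hχ u, hκs s hs u]
    · have hg := hcg u hu
      have he := hε u
      show ∃ z : ℂ, IsIntegral ℤ z ∧ β χ u * κ u ^ r = (((Nat.card I : ℤ) ^ r * n u₀ ^ (p ^ N) : ℤ) : ℂ) *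
        (((if (p : ℤ) ∣ n u - n u₀ then (1 : ℤ) else -1 : ℤ) : ℂ) * d χ u) + (p : ℂ) ^ N * z
      set e : ℤ := (if (p : ℤ) ∣ n u - n u₀ then (1 : ℤ) else -1) with hee
      obtain ⟨c, hc⟩ := dvd_sub_pow_of_dvd_sub (R := ℤ) (p := p) (a := e * n u) (b := n u₀) hg N
      have h3 : (e : ℂ) ^ 2 = 1 := by
        rcases he with h | h <;> rw [h] <;> norm_num
      have h4 : (e : ℂ) ^ (p ^ N + 1) = 1 := by
        have : p ^ N + 1 = 2 * (r + 1) := by omega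
        rw [this, pow_mul, h3, one_pow]
      have hcC : ((e : ℂ) * n u) ^ (p ^ N) = (n u₀ : ℂ) ^ (p ^ N) + (p : ℂ) ^ (N + 1) * c := by
        have h5 := congrArg (fun t : ℤ => (t : ℂ)) hc
        push_cast at h5
        linear_combination h5
      refine ⟨(((Nat.card I : ℤ) ^ r * p * c * e : ℤ) : ℂ) * d χ u, ?_, ?_⟩
      · have h6 : IsIntegral ℤ (((Nat.card I : ℤ) ^ r * p * c * e : ℤ) : ℂ) := by
          have := isIntegral_algebraMap (R := ℤ) (A := ℂ) (x := (Nat.card I : ℤ) ^ r * p * c * e)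
          rwa [eq_intCast] at this
        exact h6.mul (hPD.int χ u hu)
      · have h7 : β χ u * κ u ^ r = (Nat.card I : ℂ) ^ r * ((e : ℂ) * n u) ^ (p ^ N) * ((e : ℂ) * d χ u) := by
          rw [hPD.nd χ u hu, hκ2 u hu]
          calc (n u : ℂ) * d χ u * ((Nat.card I : ℂ) * (n u : ℂ) ^ 2) ^ r
              = (Nat.card I : ℂ) ^ r * (n u : ℂ) ^ (2 * r + 1) * d χ u * 1 := by rw [mul_pow, ← pow_mul]; ring
            _ = (Nat.card I : ℂ) ^ r * (n u : ℂ) ^ (p ^ N) * d χ u * (e : ℂ) ^ (p ^ N + 1) := by rw [h4, hr]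
            _ = (Nat.card I : ℂ) ^ r * ((e : ℂ) * n u) ^ (p ^ N) * ((e : ℂ) * d χ u) := by rw [mul_pow]; ring
        rw [h7, hcC]
        push_cast
        ring
  · refine ⟨fun _ => 1, fun _ => Or.inl rfl, fun _ _ _ _ => rfl, fun N => ⟨1, hp.not_dvd_one, fun χ => ?_⟩⟩
    exact ⟨β χ, hPD.lg χ, fun s _ h u => h u, fun u hu => absurd ⟨u, hu⟩ hR⟩

end Pool.Agent.LE
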